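import Mathlib

/-!
# The core inequality
-/

set_option autoImplicit false

namespace Pool.Agent.Q216.PC

open MeasureTheory

/-- The signs: `-1` if `R ≤ u < K - L`, and `1` otherwise. -/
noncomputable def eps (K u R L : ℕ) : ℝ := if R ≤ u ∧ u < K - L then -1 else 1

/-- The correlation of the signs. -/
noncomputable def cor (K R L R' L' : ℕ) : ℝ := ∑ u ∈ Finset.range K, eps K u R L * eps K u R' L'

theorem eps_le (K u R L : ℕ) : |eps K u R L| = 1 := by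
  unfold eps
  split_ifs <;> simp

theorem cor_le (K R L R' L' : ℕ) : cor K R L R' L' ≤ K := by
  unfold cor
  calc ∑ u ∈ Finset.range K, eps K u R L * eps K u R' L'
      ≤ ∑ u ∈ Finset.range K, (1 : ℝ) := by
        refine Finset.sum_le_sum fun u _ => ?_
        refine (le_abs_self _).trans ?_
        rw [abs_mul, eps_le, eps_le, one_mul]
    _ = K := by simp

theorem cor_symm (K R L R' L' : ℕ) : cor K R L R' L' = cor K R' L' R L := by
  unfold cor
  exact Finset.sum_congr rfl fun u _ => mul_comm _ _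

theorem sum_ind (K R L : ℕ) : ∑ u ∈ Finset.range K, (if R ≤ u ∧ u < K - L then (1 : ℝ) else 0) =
    ((K - L - R : ℕ) : ℝ) := by
  rw [Finset.sum_ite, Finset.sum_const_zero, add_zero, Finset.sum_const, nsmul_eq_mul, mul_one]
  congr 1
  have h : (Finset.range K).filter (fun u => R ≤ u ∧ u < K - L) = Finset.Ico R (K - L) := by
    ext u
    simp only [Finset.mem_filter, Finset.mem_range, Finset.mem_Ico]
    omega
  rw [h, Nat.card_Ico]

theorem cor_eq {K R L R' L' : ℕ} (h : K ≤ R + L') : cor K R L R' L' =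
    K - 2 * ((K - L - R : ℕ) : ℝ) - 2 * ((K - L' - R' : ℕ) : ℝ) := by
  have h1 : cor K R L R' L' = ∑ u ∈ Finset.range K, ((1 : ℝ) -
      2 * (if R ≤ u ∧ u < K - L then (1 : ℝ) else 0) -
      2 * (if R' ≤ u ∧ u < K - L' then (1 : ℝ) else 0)) := by
    unfold cor eps
    refine Finset.sum_congr rfl fun u _ => ?_
    by_cases h1 : R ≤ u ∧ u < K - L
    · by_cases h2 : R' ≤ u ∧ u < K - L'
      · omega
      · rw [if_pos h1, if_neg h2, if_pos h1, if_neg h2]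
        norm_num
    · by_cases h2 : R' ≤ u ∧ u < K - L'
      · rw [if_neg h1, if_pos h2, if_neg h1, if_pos h2]
        norm_num
      · rw [if_neg h1, if_neg h2, if_neg h1, if_neg h2]
        norm_num
  rw [h1, Finset.sum_sub_distrib, Finset.sum_sub_distrib, ← Finset.mul_sum, ← Finset.mul_sum,
    sum_ind, sum_ind]
  simp

/-- The case where both are at most `K`. -/
theorem poly1 {K q q' : ℝ} (hK : 1 ≤ K) (h1 : q ≤ K) (h2 : q' ≤ K) (h3 : K ≤ q + q') :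
    K ≤ 2 * K * (q ^ 2 + q' ^ 2) - K * (2 * K - 1) * (2 * K - 1 - (q + q')) -
      4 * (2 * (q + q') - 3 * K) * (q * q') := by
  obtain ⟨x, hx⟩ : ∃ x, x = q + q' - K := ⟨_, rfl⟩
  have hx0 : 0 ≤ x := by linarith
  have hxK : x ≤ K := by linarith
  have hP : 4 * (q * q') ≤ (K + x) ^ 2 := by
    rw [hx]
    nlinarith [sq_nonneg (q - q')]
  have e1 : 2 * K * (q ^ 2 + q' ^ 2) - K * (2 * K - 1) * (2 * K - 1 - (q + q')) -
      4 * (2 * (q + q') - 3 * K) * (q * q') =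
      2 * K * (K + x) ^ 2 - K * (2 * K - 1) * (K - 1 - x) - 2 * x * (4 * (q * q')) := by
    rw [hx]
    ring
  rw [e1]
  have e2 : 2 * x * (4 * (q * q')) ≤ 2 * x * (K + x) ^ 2 :=
    mul_le_mul_of_nonneg_left hP (by linarith)
  have e3 : x * x ≤ K * x := mul_le_mul_of_nonneg_right hxK hx0
  have e4 : x * (x * x) ≤ K * (K * x) := by
    calc x * (x * x) ≤ x * (K * x) := mul_le_mul_of_nonneg_left e3 hx0
      _ ≤ K * (K * x) := mul_le_mul_of_nonneg_right hxK (by positivity)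
  have e5 : K * (x * x) ≤ K * (K * x) := mul_le_mul_of_nonneg_left e3 (by linarith)
  have e6 : K * x ≤ K * K := mul_le_mul_of_nonneg_left hxK (by linarith)
  have e7 : K * 1 ≤ K * K := mul_le_mul_of_nonneg_left hK (by linarith)
  nlinarith

/-- The case where one is at least `K`. -/
theorem poly2 {K q q' : ℝ} (hK : 1 ≤ K) (h1 : K ≤ q) (h2 : q' ≤ K) (hq' : 0 ≤ q') :
    K ≤ 2 * K * (q ^ 2 + q' ^ 2) - K * (2 * K - 1) * (2 * K - 1 - (q + q')) -
      4 * (2 * q' - K) * (q * q') := by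
  obtain ⟨e, rfl⟩ : ∃ e, q = K + e := ⟨q - K, by ring⟩
  have he : 0 ≤ e := by linarith
  have a1 : 0 ≤ 6 * K * q' * (K - q') := by
    have : 0 ≤ K - q' := by linarith
    positivity
  have a2 : q' * q' ≤ K * q' := mul_le_mul_of_nonneg_right h2 hq'
  have a3 : K * q' ≤ K * K := mul_le_mul_of_nonneg_left h2 (by linarith)
  have a4 : e * (q' * q') ≤ e * (K * q') := mul_le_mul_of_nonneg_left a2 he
  have a5 : e * (K * q') ≤ e * (K * K) := mul_le_mul_of_nonneg_left a3 he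
  have a6 : K * 1 ≤ K * K := mul_le_mul_of_nonneg_left hK (by linarith)
  have a7 : e * (K * 1) ≤ e * (K * K) := mul_le_mul_of_nonneg_left a6 he
  have a8 : 0 ≤ K * e ^ 2 := by positivity
  nlinarith

theorem natCast_sub_le {K Q : ℕ} (h : Q ≤ K) {L R : ℕ} (hQ : Q = R + L) :
    ((K - L - R : ℕ) : ℝ) = K - Q := by
  rw [Nat.sub_sub, show L + R = Q by omega, Nat.cast_sub h]

theorem sub_zero' {K Q : ℕ} (h : K ≤ Q) {L R : ℕ} (hQ : Q = R + L) :
    ((K - L - R : ℕ) : ℝ) = 0 := by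
  rw [Nat.sub_sub, Nat.sub_eq_zero_of_le (by omega)]
  simp

/-- One of the pairs is in the region. -/
theorem slack1 {k R L R' L' : ℕ} (h : k + 1 ≤ R + L') :
    (1 : ℝ) ≤ 2 * ((R + L : ℕ) : ℝ) ^ 2 + 2 * ((R' + L' : ℕ) : ℝ) ^ 2 -
      (2 * k + 1) * ((2 * k + 1) - ((R + L : ℕ) : ℝ) - ((R' + L' : ℕ) : ℝ)) -
      4 / (k + 1) * cor (k + 1) R L R' L' * (((R + L : ℕ) : ℝ) * ((R' + L' : ℕ) : ℝ)) := by
  obtain ⟨Q, hQ⟩ : ∃ Q, Q = R + L := ⟨_, rfl⟩
  obtain ⟨Q', hQ'⟩ : ∃ Q', Q' = R' + L' := ⟨_, rfl⟩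
  rw [← hQ, ← hQ', cor_eq h]
  have hK : (0 : ℝ) < k + 1 := by positivity
  have hK1 : (1 : ℝ) ≤ k + 1 := by
    have : (0 : ℝ) ≤ k := by positivity
    linarith
  have hQ0 : (0 : ℝ) ≤ Q := by positivity
  have hQ0' : (0 : ℝ) ≤ Q' := by positivity
  have hS : ((k : ℝ) + 1) ≤ Q + Q' := by
    have : k + 1 ≤ Q + Q' := by omega
    exact_mod_cast this
  -- multiply by `k + 1`
  suffices hs : ((k : ℝ) + 1) * 1 ≤ ((k : ℝ) + 1) * (2 * (Q : ℝ) ^ 2 + 2 * (Q' : ℝ) ^ 2 -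
      (2 * k + 1) * ((2 * k + 1) - (Q : ℝ) - (Q' : ℝ)) -
      4 / (k + 1) * (((k + 1 : ℕ) : ℝ) - 2 * ((k + 1 - L - R : ℕ) : ℝ) -
        2 * ((k + 1 - L' - R' : ℕ) : ℝ)) * ((Q : ℝ) * (Q' : ℝ))) from
    le_of_mul_le_mul_left hs hK
  have e1 : ∀ c : ℝ, ((k : ℝ) + 1) * (2 * (Q : ℝ) ^ 2 + 2 * (Q' : ℝ) ^ 2 -
      (2 * k + 1) * ((2 * k + 1) - (Q : ℝ) - (Q' : ℝ)) -
      4 / (k + 1) * c * ((Q : ℝ) * (Q' : ℝ))) =
      2 * ((k : ℝ) + 1) * ((Q : ℝ) ^ 2 + (Q' : ℝ) ^ 2) - ((k : ℝ) + 1) *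
        (2 * ((k : ℝ) + 1) - 1) * (2 * ((k : ℝ) + 1) - 1 - (Q + Q')) -
        4 * c * ((Q : ℝ) * (Q' : ℝ)) := by
    intro c
    field_simp
    ring
  rw [e1, mul_one]
  push_cast
  rcases Nat.le_total Q (k + 1) with c1 | c1
  · rcases Nat.le_total Q' (k + 1) with c2 | c2
    · rw [natCast_sub_le c1 hQ, natCast_sub_le c2 hQ']
      have h1 : (Q : ℝ) ≤ k + 1 := by exact_mod_cast c1
      have h2 : (Q' : ℝ) ≤ k + 1 := by exact_mod_cast c2
      have := poly1 hK1 h1 h2 hS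
      push_cast
      nlinarith
    · rw [natCast_sub_le c1 hQ, sub_zero' c2 hQ']
      have h1 : (Q : ℝ) ≤ k + 1 := by exact_mod_cast c1
      have h2 : (k : ℝ) + 1 ≤ Q' := by exact_mod_cast c2
      have := poly2 hK1 h2 h1 hQ0
      push_cast
      nlinarith
  · rcases Nat.le_total Q' (k + 1) with c2 | c2
    · rw [sub_zero' c1 hQ, natCast_sub_le c2 hQ']
      have h1 : (k : ℝ) + 1 ≤ Q := by exact_mod_cast c1
      have h2 : (Q' : ℝ) ≤ k + 1 := by exact_mod_cast c2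
      have := poly2 hK1 h1 h2 hQ0'
      push_cast
      nlinarith
    · rw [sub_zero' c1 hQ, sub_zero' c2 hQ']
      have h1 : (k : ℝ) + 1 ≤ Q := by exact_mod_cast c1
      have h2 : (k : ℝ) + 1 ≤ Q' := by exact_mod_cast c2
      have e2 : 0 ≤ ((k : ℝ) + 1) * ((Q : ℝ) - Q') ^ 2 := by positivity
      have e3 : (0 : ℝ) ≤ (2 * ((k : ℝ) + 1) - 1 - 1) * ((k : ℝ) + 1) := by
        have : (0 : ℝ) ≤ k := by positivity
        nlinarith
      have e4 : (0 : ℝ) ≤ ((k : ℝ) + 1) * (2 * ((k : ℝ) + 1) - 1) *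
          ((Q : ℝ) + Q' - 2 * ((k : ℝ) + 1)) := by
        have a1 : (0 : ℝ) ≤ (Q : ℝ) + Q' - 2 * ((k : ℝ) + 1) := by linarith
        have a2 : (0 : ℝ) ≤ 2 * ((k : ℝ) + 1) - 1 := by linarith
        positivity
      nlinarith

/-- The indicator of the region. -/
noncomputable def ind (k R L' : ℕ) : ℝ := if k + 1 ≤ R + L' then 1 else 0

/-- The pointwise inequality. -/
theorem slack (k R L R' L' : ℕ) : max (ind k R L') (ind k R' L) ≤
    2 * ((R + L : ℕ) : ℝ) ^ 2 + 2 * ((R' + L' : ℕ) : ℝ) ^ 2 -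
      (2 * k + 1) * ((2 * k + 1) - ((R + L : ℕ) : ℝ) - ((R' + L' : ℕ) : ℝ)) *
        (ind k R L' + ind k R' L) -
      4 / (k + 1) * cor (k + 1) R L R' L' * (((R + L : ℕ) : ℝ) * ((R' + L' : ℕ) : ℝ)) := by
  have hcor := cor_le (k + 1) R L R' L'
  have hgen : 4 / ((k : ℝ) + 1) * cor (k + 1) R L R' L' *
      (((R + L : ℕ) : ℝ) * ((R' + L' : ℕ) : ℝ)) ≤
      2 * ((R + L : ℕ) : ℝ) ^ 2 + 2 * ((R' + L' : ℕ) : ℝ) ^ 2 := by
    have h1 : 4 / ((k : ℝ) + 1) * cor (k + 1) R L R' L' ≤ 4 := by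
      rw [div_mul_eq_mul_div, div_le_iff₀ (by positivity)]
      push_cast at hcor
      linarith
    have h2 : 4 / ((k : ℝ) + 1) * cor (k + 1) R L R' L' *
        (((R + L : ℕ) : ℝ) * ((R' + L' : ℕ) : ℝ)) ≤
        4 * (((R + L : ℕ) : ℝ) * ((R' + L' : ℕ) : ℝ)) :=
      mul_le_mul_of_nonneg_right h1 (by positivity)
    nlinarith [sq_nonneg (((R + L : ℕ) : ℝ) - ((R' + L' : ℕ) : ℝ))]
  by_cases c1 : k + 1 ≤ R + L'
  · by_cases c2 : k + 1 ≤ R' + L
    · have e1 : ind k R L' = 1 := if_pos c1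
      have e2 : ind k R' L = 1 := if_pos c2
      rw [e1, e2, max_self]
      have h3 : 2 * ((k : ℝ) + 1) ≤ ((R + L : ℕ) : ℝ) + ((R' + L' : ℕ) : ℝ) := by
        have : 2 * (k + 1) ≤ (R + L) + (R' + L') := by omega
        exact_mod_cast this
      have h4 : (0 : ℝ) ≤ k := by positivity
      nlinarith
    · have e1 : ind k R L' = 1 := if_pos c1
      have e2 : ind k R' L = 0 := if_neg c2
      rw [e1, e2, add_zero, mul_one, max_eq_left zero_le_one]
      exact slack1 c1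
  · by_cases c2 : k + 1 ≤ R' + L
    · have e1 : ind k R L' = 0 := if_neg c1
      have e2 : ind k R' L = 1 := if_pos c2
      rw [e1, e2, zero_add, mul_one, max_eq_right zero_le_one]
      have h3 := slack1 (L := L') (R' := R) c2
      rw [cor_symm] at h3
      nlinarith
    · have e1 : ind k R L' = 0 := if_neg c1
      have e2 : ind k R' L = 0 := if_neg c2
      rw [e1, e2, add_zero, mul_zero, sub_zero, max_self]
      linarith

end Pool.Agent.Q216.PC
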