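import Mathlib

/-!
# Facility location on the circle: the mechanism RD+PCD
-/

set_option autoImplicit false

namespace Pool.Agent.Q216.PC

/-- The circle of length 1, with its arc length metric `d(u, v) = min(|u - v|, 1 - |u - v|)`. -/
abbrev Circ : Type := AddCircle (1 : ℝ)

variable {N : Type*} [Fintype N]

/-- The social cost of the point `v`. -/
noncomputable def cost (b : N → Circ) (v : Circ) : ℝ := ∑ i, dist (b i) v

/-- The expected social cost of a lottery (`l v` is the probability of `v`). -/
noncomputable def sc (b : N → Circ) (l : Circ →₀ ℝ) : ℝ := l.sum fun v p => p * cost b v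

/-- The optimal social cost. -/
noncomputable def opt (b : N → Circ) : ℝ := ⨅ v, cost b v

/-- The length of the clockwise arc from `u` to `v`: the representative of `v - u` in `[0, 1)`. -/
noncomputable def cw (u v : Circ) : ℝ := (AddCircle.equivIco 1 0 (v - u) : ℝ)

/-- The random dictator mechanism. -/
noncomputable def RD (b : N → Circ) : Circ →₀ ℝ :=
  ∑ i, Finsupp.single (b i) (1 / (Fintype.card N : ℝ))

section

variable {k : ℕ}

/-- `a` lists the `2 k + 1` agents in clockwise order of their reports: the consecutive clockwise
arcs go exactly once round the circle. -/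
def IsClockwise (b : N → Circ) (a : ZMod (2 * k + 1) ≃ N) : Prop :=
  ∑ j, cw (b (a j)) (b (a (j + 1))) = 1

/-- The length of the arc opposing the agent `a j`: the clockwise arc from `b (a (j + k))` to
`b (a (j - k))`. -/
noncomputable def arc (b : N → Circ) (a : ZMod (2 * k + 1) ≃ N) (j : ZMod (2 * k + 1)) : ℝ :=
  cw (b (a (j + k))) (b (a (j - k)))

/-- The proportional circle distance mechanism. -/
noncomputable def PCD (b : N → Circ) (a : ZMod (2 * k + 1) ≃ N) : Circ →₀ ℝ :=
  ∑ j, Finsupp.single (b (a j)) (arc b a j / ∑ l, arc b a l)

end

end Pool.Agent.Q216.PC
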