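import Mathlib
import Pool.Agent.Q216.PC.Core

/-!
# The integrated inequality
-/

set_option autoImplicit false

namespace Pool.Agent.Q216.PC

open MeasureTheory

variable {Ω : Type*} [MeasurableSpace Ω] {μ : Measure Ω} [IsFiniteMeasure μ] {R L : Ω → ℕ} {N : ℕ}

theorem integrable4 (hR : Measurable R) (hL : Measurable L) (hRN : ∀ z, R z ≤ N)
    (hLN : ∀ z, L z ≤ N) (G : ℕ → ℕ → ℕ → ℕ → ℝ) :
    Integrable (fun p : Ω × Ω => G (R p.1) (L p.1) (R p.2) (L p.2)) (μ.prod μ) := by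
  have hm : Measurable (fun p : Ω × Ω => G (R p.1) (L p.1) (R p.2) (L p.2)) := by
    have h1 : Measurable fun q : ℕ × ℕ × ℕ × ℕ => G q.1 q.2.1 q.2.2.1 q.2.2.2 :=
      Measurable.of_discrete
    have h2 : Measurable fun p : Ω × Ω => (R p.1, L p.1, R p.2, L p.2) :=
      (hR.comp measurable_fst).prodMk ((hL.comp measurable_fst).prodMk
        ((hR.comp measurable_snd).prodMk (hL.comp measurable_snd)))
    exact h1.comp h2
  refine Integrable.of_bound hm.aestronglyMeasurable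
    (∑ q ∈ Finset.range (N + 1) ×ˢ Finset.range (N + 1) ×ˢ Finset.range (N + 1) ×ˢ
      Finset.range (N + 1), ‖G q.1 q.2.1 q.2.2.1 q.2.2.2‖) (Filter.Eventually.of_forall ?_)
  intro p
  refine Finset.single_le_sum (f := fun q : ℕ × ℕ × ℕ × ℕ => ‖G q.1 q.2.1 q.2.2.1 q.2.2.2‖)
    (fun q _ => norm_nonneg _) (a := (R p.1, L p.1, R p.2, L p.2)) ?_
  simp only [Finset.mem_product, Finset.mem_range]
  exact ⟨Nat.lt_succ_of_le (hRN _), Nat.lt_succ_of_le (hLN _), Nat.lt_succ_of_le (hRN _),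
    Nat.lt_succ_of_le (hLN _)⟩

theorem integrable2 (hR : Measurable R) (hL : Measurable L) (hRN : ∀ z, R z ≤ N)
    (hLN : ∀ z, L z ≤ N) (G : ℕ → ℕ → ℝ) : Integrable (fun z : Ω => G (R z) (L z)) μ := by
  have hm : Measurable (fun z : Ω => G (R z) (L z)) := by
    have h1 : Measurable fun q : ℕ × ℕ => G q.1 q.2 := Measurable.of_discrete
    exact h1.comp (hR.prodMk hL)
  refine Integrable.of_bound hm.aestronglyMeasurable
    (∑ q ∈ Finset.range (N + 1) ×ˢ Finset.range (N + 1), ‖G q.1 q.2‖)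
    (Filter.Eventually.of_forall ?_)
  intro z
  refine Finset.single_le_sum (f := fun q : ℕ × ℕ => ‖G q.1 q.2‖)
    (fun q _ => norm_nonneg _) (a := (R z, L z)) ?_
  simp only [Finset.mem_product, Finset.mem_range]
  exact ⟨Nat.lt_succ_of_le (hRN _), Nat.lt_succ_of_le (hLN _)⟩

theorem core (hμ : μ.real Set.univ = 1 / 2) (hR : Measurable R) (hL : Measurable L)
    (hRN : ∀ z, R z ≤ N) (hLN : ∀ z, L z ≤ N) (k : ℕ)
    (hpos : 0 < ∫ z, ((R z + L z : ℕ) : ℝ) ∂μ) :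
    (2 * k + 1) * ∫ p : Ω × Ω, ind k (R p.1) (L p.2) * (2 * (2 * k + 1) -
      2 * ((R p.1 + L p.1 : ℕ) : ℝ) - 2 * ((R p.2 + L p.2 : ℕ) : ℝ)) ∂(μ.prod μ) <
    2 * ∫ z, ((R z + L z : ℕ) : ℝ) ^ 2 ∂μ := by
  have I4 := fun G => integrable4 (μ := μ) hR hL hRN hLN G
  have I2 := fun G => integrable2 (μ := μ) hR hL hRN hLN G
  set A : ℝ := ∫ z, ((R z + L z : ℕ) : ℝ) ^ 2 ∂μ with hA
  set B : ℝ := ∫ p : Ω × Ω, ind k (R p.1) (L p.2) * ((2 * k + 1) -
      ((R p.1 + L p.1 : ℕ) : ℝ) - ((R p.2 + L p.2 : ℕ) : ℝ)) ∂(μ.prod μ) with hB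
  have hB2 : ∫ p : Ω × Ω, ind k (R p.1) (L p.2) * (2 * (2 * k + 1) -
      2 * ((R p.1 + L p.1 : ℕ) : ℝ) - 2 * ((R p.2 + L p.2 : ℕ) : ℝ)) ∂(μ.prod μ) = 2 * B := by
    rw [hB, ← integral_const_mul]
    refine integral_congr_ae (Filter.Eventually.of_forall fun p => ?_)
    simp only
    ring
  have hB' : ∫ p : Ω × Ω, ind k (R p.2) (L p.1) * ((2 * k + 1) -
      ((R p.1 + L p.1 : ℕ) : ℝ) - ((R p.2 + L p.2 : ℕ) : ℝ)) ∂(μ.prod μ) = B := by
    rw [hB, ← integral_prod_swap]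
    refine integral_congr_ae (Filter.Eventually.of_forall fun p => ?_)
    simp only [Prod.fst_swap, Prod.snd_swap]
    ring
  -- squares
  have hA1 : ∫ p : Ω × Ω, ((R p.1 + L p.1 : ℕ) : ℝ) ^ 2 ∂(μ.prod μ) = A / 2 := by
    have h1 := integral_prod_mul (μ := μ) (ν := μ) (fun z => ((R z + L z : ℕ) : ℝ) ^ 2)
      (fun _ => (1 : ℝ))
    simp only [mul_one, integral_const, smul_eq_mul, hμ] at h1
    rw [h1]
    ring
  have hA2 : ∫ p : Ω × Ω, ((R p.2 + L p.2 : ℕ) : ℝ) ^ 2 ∂(μ.prod μ) = A / 2 := by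
    have h1 := integral_prod_mul (μ := μ) (ν := μ) (fun _ => (1 : ℝ))
      (fun z => ((R z + L z : ℕ) : ℝ) ^ 2)
    simp only [one_mul, integral_const, smul_eq_mul, mul_one, hμ] at h1
    rw [h1]
    ring
  -- correlations
  set C : ℝ := ∫ p : Ω × Ω, cor (k + 1) (R p.1) (L p.1) (R p.2) (L p.2) *
    (((R p.1 + L p.1 : ℕ) : ℝ) * ((R p.2 + L p.2 : ℕ) : ℝ)) ∂(μ.prod μ) with hC
  have hC0 : 0 ≤ C := by
    have h1 : C = ∑ u ∈ Finset.range (k + 1),
        ∫ p : Ω × Ω, (eps (k + 1) u (R p.1) (L p.1) * ((R p.1 + L p.1 : ℕ) : ℝ)) *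
          (eps (k + 1) u (R p.2) (L p.2) * ((R p.2 + L p.2 : ℕ) : ℝ)) ∂(μ.prod μ) := by
      rw [hC, ← integral_finsetSum]
      · refine integral_congr_ae (Filter.Eventually.of_forall fun p => ?_)
        simp only [cor]
        rw [Finset.sum_mul]
        refine Finset.sum_congr rfl fun u _ => ?_
        ring
      · intro u _
        exact I4 fun a b c d => (eps (k + 1) u a b * ((a + b : ℕ) : ℝ)) *
          (eps (k + 1) u c d * ((c + d : ℕ) : ℝ))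
    rw [h1]
    refine Finset.sum_nonneg fun u _ => ?_
    rw [integral_prod_mul (μ := μ) (ν := μ)
      (fun z => eps (k + 1) u (R z) (L z) * ((R z + L z : ℕ) : ℝ))
      (fun z => eps (k + 1) u (R z) (L z) * ((R z + L z : ℕ) : ℝ))]
    exact mul_self_nonneg _
  -- the integrated inequality
  have hM : ∫ p : Ω × Ω, max (ind k (R p.1) (L p.2)) (ind k (R p.2) (L p.1)) ∂(μ.prod μ) ≤
      2 * A - (2 * k + 1) * (2 * B) := by
    have h1 : ∫ p : Ω × Ω, max (ind k (R p.1) (L p.2)) (ind k (R p.2) (L p.1)) ∂(μ.prod μ) ≤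
        ∫ p : Ω × Ω, (2 * ((R p.1 + L p.1 : ℕ) : ℝ) ^ 2 + 2 * ((R p.2 + L p.2 : ℕ) : ℝ) ^ 2 -
          (2 * k + 1) * ((2 * k + 1) - ((R p.1 + L p.1 : ℕ) : ℝ) - ((R p.2 + L p.2 : ℕ) : ℝ)) *
            (ind k (R p.1) (L p.2) + ind k (R p.2) (L p.1)) -
          4 / (k + 1) * cor (k + 1) (R p.1) (L p.1) (R p.2) (L p.2) *
            (((R p.1 + L p.1 : ℕ) : ℝ) * ((R p.2 + L p.2 : ℕ) : ℝ))) ∂(μ.prod μ) :=
      integral_mono (I4 fun a b c d => max (ind k a d) (ind k c b))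
        (I4 fun a b c d => (2 * ((a + b : ℕ) : ℝ) ^ 2 + 2 * ((c + d : ℕ) : ℝ) ^ 2 -
          (2 * k + 1) * ((2 * k + 1) - ((a + b : ℕ) : ℝ) - ((c + d : ℕ) : ℝ)) *
            (ind k a d + ind k c b) -
          4 / (k + 1) * cor (k + 1) a b c d * (((a + b : ℕ) : ℝ) * ((c + d : ℕ) : ℝ))))
        fun p => slack k (R p.1) (L p.1) (R p.2) (L p.2)
    refine h1.trans (le_of_eq_of_le ?_ (sub_le_self _ (show 0 ≤ 4 / ((k : ℝ) + 1) * C by
      positivity)))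
    have h2 : ∀ p : Ω × Ω, (2 * ((R p.1 + L p.1 : ℕ) : ℝ) ^ 2 +
        2 * ((R p.2 + L p.2 : ℕ) : ℝ) ^ 2 -
          (2 * k + 1) * ((2 * k + 1) - ((R p.1 + L p.1 : ℕ) : ℝ) - ((R p.2 + L p.2 : ℕ) : ℝ)) *
            (ind k (R p.1) (L p.2) + ind k (R p.2) (L p.1)) -
          4 / (k + 1) * cor (k + 1) (R p.1) (L p.1) (R p.2) (L p.2) *
            (((R p.1 + L p.1 : ℕ) : ℝ) * ((R p.2 + L p.2 : ℕ) : ℝ))) =
        ((2 * ((R p.1 + L p.1 : ℕ) : ℝ) ^ 2 + 2 * ((R p.2 + L p.2 : ℕ) : ℝ) ^ 2) -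
          ((2 * k + 1) * (ind k (R p.1) (L p.2) * ((2 * k + 1) -
            ((R p.1 + L p.1 : ℕ) : ℝ) - ((R p.2 + L p.2 : ℕ) : ℝ))) +
           (2 * k + 1) * (ind k (R p.2) (L p.1) * ((2 * k + 1) -
            ((R p.1 + L p.1 : ℕ) : ℝ) - ((R p.2 + L p.2 : ℕ) : ℝ))))) -
          4 / (k + 1) * (cor (k + 1) (R p.1) (L p.1) (R p.2) (L p.2) *
            (((R p.1 + L p.1 : ℕ) : ℝ) * ((R p.2 + L p.2 : ℕ) : ℝ))) := by
      intro p
      ring
    simp only [h2]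
    have J1 := I4 fun a b _ _ => 2 * ((a + b : ℕ) : ℝ) ^ 2
    have J2 := I4 fun _ _ c d => 2 * ((c + d : ℕ) : ℝ) ^ 2
    have J3 := I4 fun a b c d => (2 * (k : ℝ) + 1) * (ind k a d * ((2 * k + 1) -
      ((a + b : ℕ) : ℝ) - ((c + d : ℕ) : ℝ)))
    have J4 := I4 fun a b c d => (2 * (k : ℝ) + 1) * (ind k c b * ((2 * k + 1) -
      ((a + b : ℕ) : ℝ) - ((c + d : ℕ) : ℝ)))
    have J5 := I4 fun a b c d => 4 / ((k : ℝ) + 1) * (cor (k + 1) a b c d *
      (((a + b : ℕ) : ℝ) * ((c + d : ℕ) : ℝ)))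
    have J12 := I4 fun a b c d => 2 * ((a + b : ℕ) : ℝ) ^ 2 + 2 * ((c + d : ℕ) : ℝ) ^ 2
    have J34 := I4 fun a b c d => (2 * (k : ℝ) + 1) * (ind k a d * ((2 * k + 1) -
      ((a + b : ℕ) : ℝ) - ((c + d : ℕ) : ℝ))) + (2 * (k : ℝ) + 1) * (ind k c b * ((2 * k + 1) -
      ((a + b : ℕ) : ℝ) - ((c + d : ℕ) : ℝ)))
    have J14 := I4 fun a b c d => (2 * ((a + b : ℕ) : ℝ) ^ 2 + 2 * ((c + d : ℕ) : ℝ) ^ 2) -
      ((2 * (k : ℝ) + 1) * (ind k a d * ((2 * k + 1) -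
      ((a + b : ℕ) : ℝ) - ((c + d : ℕ) : ℝ))) + (2 * (k : ℝ) + 1) * (ind k c b * ((2 * k + 1) -
      ((a + b : ℕ) : ℝ) - ((c + d : ℕ) : ℝ))))
    rw [integral_sub J14 J5, integral_sub J12 J34,
      integral_add J1 J2, integral_add J3 J4, integral_const_mul, integral_const_mul,
      integral_const_mul, integral_const_mul, integral_const_mul, hA1, hA2, hB', ← hB, ← hC]
    ring
  rw [hB2]
  have hmax0 : 0 ≤ ∫ p : Ω × Ω, max (ind k (R p.1) (L p.2)) (ind k (R p.2) (L p.1))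
      ∂(μ.prod μ) := by
    refine integral_nonneg fun p => ?_
    refine le_max_of_le_left ?_
    unfold ind
    split_ifs <;> simp
  rcases hmax0.lt_or_eq with h | h
  · linarith
  · -- the region is null
    have h0 : (fun p : Ω × Ω => max (ind k (R p.1) (L p.2)) (ind k (R p.2) (L p.1))) =ᵐ[μ.prod μ]
        0 := by
      refine (integral_eq_zero_iff_of_nonneg (fun p => ?_)
        (I4 fun a b c d => max (ind k a d) (ind k c b))).mp h.symm
      refine le_max_of_le_left ?_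
      unfold ind
      split_ifs <;> simp
    have hB0 : B = 0 := by
      rw [hB]
      refine integral_eq_zero_of_ae ?_
      filter_upwards [h0] with p hp
      have h1 : max (ind k (R p.1) (L p.2)) (ind k (R p.2) (L p.1)) = 0 := hp
      have h2 : ind k (R p.1) (L p.2) ≤ 0 := by
        rw [← h1]
        exact le_max_left _ _
      have h3 : 0 ≤ ind k (R p.1) (L p.2) := by
        unfold ind
        split_ifs <;> simp
      have h4 : ind k (R p.1) (L p.2) = 0 := le_antisymm h2 h3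
      rw [h4]
      simp
    have hApos : 0 < A := by
      refine lt_of_lt_of_le hpos ?_
      refine integral_mono (I2 fun a b => ((a + b : ℕ) : ℝ))
        (I2 fun a b => ((a + b : ℕ) : ℝ) ^ 2) fun z => ?_
      have h5 : (R z + L z) ≤ (R z + L z) ^ 2 := by
        rw [sq]
        exact Nat.le_mul_self _
      simp only
      exact_mod_cast h5
    rw [hB0]
    linarith

end Pool.Agent.Q216.PC
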