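import Mathlib
import Pool.Agent.Q216.PC.Meas

/-!
# Half circles
-/

set_option autoImplicit false

namespace Pool.Agent.Q216.PC

open MeasureTheory

/-- The measure on `(0, 1/2)`. -/
noncomputable def mu : Measure ℝ := volume.restrict (Set.Ioo 0 (1 / 2))

instance : IsFiniteMeasure mu := by
  unfold mu
  infer_instance

theorem mu_univ : mu.real Set.univ = 1 / 2 := by
  unfold mu
  rw [measureReal_restrict_apply_univ, Real.volume_real_Ioo_of_le (by norm_num)]
  norm_num

theorem int_of {F : ℝ → ℝ} (c d : ℝ) (h0 : 0 ≤ c) (hcd : c ≤ d) (hd : d ≤ 1 / 2)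
    (h : ∀ s, 0 < s → s < 1 / 2 → F s = if c < s ∧ s < d then 1 else 0) :
    ∫ s, F s ∂mu = d - c := by
  have h1 : ∫ s, F s ∂mu = ∫ s in Set.Ioo (0 : ℝ) (1 / 2), (Set.Ioo c d).indicator 1 s := by
    unfold mu
    refine setIntegral_congr_fun measurableSet_Ioo fun s hs => ?_
    rw [h s hs.1 hs.2]
    by_cases h2 : c < s ∧ s < d
    · rw [if_pos h2, Set.indicator_of_mem (show s ∈ Set.Ioo c d from h2)]
      rfl
    · rw [if_neg h2, Set.indicator_of_notMem (show s ∉ Set.Ioo c d from h2)]
  rw [h1, setIntegral_indicator measurableSet_Ioo, Set.inter_eq_self_of_subset_right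
    (Set.Ioo_subset_Ioo h0 hd)]
  simp [hcd]

/-- The half circle `(s, s + 1/2)` contains `a`. -/
noncomputable def chi (a s : ℝ) : ℝ := (if s < a then 1 else 0) + (if a < s - 1 / 2 then 1 else 0)

/-- The distance on the circle. -/
noncomputable def dc (x : ℝ) : ℝ := min |x| (1 - |x|)

theorem chi_of_nonneg {a s : ℝ} (ha : 0 ≤ a) (hs : s < 1 / 2) : chi a s = if s < a then 1 else 0 := by
  unfold chi
  rw [if_neg (show ¬ a < s - 1 / 2 by linarith), add_zero]

theorem chi_of_neg {a s : ℝ} (ha : a < 0) (hs : 0 < s) :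
    chi a s = if 1 / 2 + a < s then 1 else 0 := by
  unfold chi
  rw [if_neg (show ¬ s < a by linarith), zero_add]
  by_cases h : 1 / 2 + a < s
  · rw [if_pos h, if_pos (by linarith)]
  · rw [if_neg h, if_neg (by linarith)]

theorem int_chi {a : ℝ} (h1 : -(1 / 2) < a) (h2 : a ≤ 1 / 2) : ∫ s, chi a s ∂mu = |a| := by
  rcases le_or_gt 0 a with ha | ha
  · rw [int_of (F := chi a) 0 a le_rfl ha h2, sub_zero, abs_of_nonneg ha]
    intro s hs hs'
    rw [chi_of_nonneg ha hs']
    simp [hs]
  · rw [int_of (F := chi a) (1 / 2 + a) (1 / 2) (by linarith) (by linarith) le_rfl,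
      abs_of_neg ha]
    · ring
    · intro s hs hs'
      rw [chi_of_neg ha hs]
      by_cases h : 1 / 2 + a < s
      · rw [if_pos h, if_pos ⟨h, hs'⟩]
      · rw [if_neg h, if_neg (fun h3 => h h3.1)]

theorem int_chi_mul_aux {a b : ℝ} (ha2 : a ≤ 1 / 2) (hb1 : -(1 / 2) < b)
    (ha : 0 ≤ a) (hb : b < 0) :
    2 * ∫ s, chi a s * chi b s ∂mu = |a| + |b| - dc (a - b) := by
  have e1 : |a| = a := abs_of_nonneg ha
  have e2 : |b| = -b := abs_of_neg hb
  have e3 : |a - b| = a - b := abs_of_nonneg (by linarith)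
  unfold dc
  rw [e1, e2, e3]
  rcases le_or_gt (1 / 2 + b) a with h | h
  · rw [int_of (F := fun s => chi a s * chi b s) (1 / 2 + b) a (by linarith) h ha2,
      min_eq_right (by linarith)]
    · ring
    · intro s hs hs'
      rw [chi_of_nonneg ha hs', chi_of_neg hb hs]
      by_cases h1 : s < a
      · by_cases h2 : 1 / 2 + b < s
        · rw [if_pos h1, if_pos h2, if_pos ⟨h2, h1⟩, mul_one]
        · rw [if_pos h1, if_neg h2, if_neg (fun h3 => h2 h3.1), mul_zero]
      · rw [if_neg h1, zero_mul, if_neg (fun h3 => h1 h3.2)]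
  · rw [int_of (F := fun s => chi a s * chi b s) 0 0 le_rfl le_rfl (by norm_num),
      min_eq_left (by linarith)]
    · ring
    · intro s hs hs'
      rw [chi_of_nonneg ha hs', chi_of_neg hb hs, if_neg (show ¬ (0 < s ∧ s < 0) by
        rintro ⟨_, h3⟩; linarith)]
      by_cases h1 : s < a
      · rw [if_neg (show ¬ 1 / 2 + b < s by linarith), mul_zero]
      · rw [if_neg h1, zero_mul]

theorem int_chi_mul {a b : ℝ} (ha1 : -(1 / 2) < a) (ha2 : a ≤ 1 / 2) (hb1 : -(1 / 2) < b)
    (hb2 : b ≤ 1 / 2) : 2 * ∫ s, chi a s * chi b s ∂mu = |a| + |b| - dc (a - b) := by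
  rcases le_or_gt 0 a with ha | ha
  · rcases le_or_gt 0 b with hb | hb
    · have e : |a - b| ≤ 1 / 2 := abs_le.mpr ⟨by linarith, by linarith⟩
      unfold dc
      rw [min_eq_left (by linarith), abs_of_nonneg ha, abs_of_nonneg hb,
        int_of (F := fun s => chi a s * chi b s) 0 (min a b) le_rfl (le_min ha hb)
        ((min_le_left _ _).trans ha2)]
      · rcases le_total a b with h | h
        · rw [min_eq_left h, abs_of_nonpos (by linarith)]
          ring
        · rw [min_eq_right h, abs_of_nonneg (by linarith)]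
          ring
      · intro s hs hs'
        rw [chi_of_nonneg ha hs', chi_of_nonneg hb hs']
        by_cases h1 : s < a
        · by_cases h2 : s < b
          · rw [if_pos h1, if_pos h2, if_pos ⟨hs, lt_min h1 h2⟩, mul_one]
          · rw [if_neg h2, mul_zero, if_neg (fun h3 => h2 (lt_of_lt_of_le h3.2 (min_le_right _ _)))]
        · rw [if_neg h1, zero_mul, if_neg (fun h3 => h1 (lt_of_lt_of_le h3.2 (min_le_left _ _)))]
    · exact int_chi_mul_aux ha2 hb1 ha hb
  · rcases le_or_gt 0 b with hb | hb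
    · have h := int_chi_mul_aux hb2 ha1 hb ha
      have e : dc (a - b) = dc (b - a) := by
        unfold dc
        rw [abs_sub_comm]
      rw [e, add_comm |a| |b|, ← h]
      congr 1
      refine integral_congr_ae (Filter.Eventually.of_forall fun s => ?_)
      simp only
      ring
    · have e : |a - b| ≤ 1 / 2 := abs_le.mpr ⟨by linarith, by linarith⟩
      unfold dc
      rw [min_eq_left (by linarith), abs_of_neg ha, abs_of_neg hb,
        int_of (F := fun s => chi a s * chi b s) (1 / 2 + max a b) (1 / 2)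
        (by linarith [le_max_left a b]) (by linarith [max_le ha.le hb.le]) le_rfl]
      · rcases le_total a b with h | h
        · rw [max_eq_right h, abs_of_nonpos (by linarith)]
          ring
        · rw [max_eq_left h, abs_of_nonneg (by linarith)]
          ring
      · intro s hs hs'
        rw [chi_of_neg ha hs, chi_of_neg hb hs]
        by_cases h1 : 1 / 2 + a < s
        · by_cases h2 : 1 / 2 + b < s
          · have h4 : max a b < s - 1 / 2 := max_lt (by linarith) (by linarith)
            rw [if_pos h1, if_pos h2, if_pos ⟨by linarith, hs'⟩, mul_one]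
          · rw [if_neg h2, mul_zero, if_neg (fun h3 => h2 (by
              linarith [h3.1, le_max_right a b]))]
        · rw [if_neg h1, zero_mul, if_neg (fun h3 => h1 (by
            linarith [h3.1, le_max_left a b]))]

/-! ### The counting functions -/

/-- The number of agents on the right beyond `s`. -/
noncomputable def Rf (n : ℕ) (T : ℕ → ℝ) (s : ℝ) : ℕ :=
  ∑ j ∈ Finset.range n, if s < T j then 1 else 0

/-- The number of agents on the left beyond the antipode of `s`. -/
noncomputable def Lf (n : ℕ) (T : ℕ → ℝ) (s : ℝ) : ℕ :=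
  ∑ j ∈ Finset.range n, if T j < s - 1 / 2 then 1 else 0

theorem meas_Rf (n : ℕ) (T : ℕ → ℝ) : Measurable (Rf n T) := by
  unfold Rf
  refine Finset.measurable_sum _ fun j _ => ?_
  exact Measurable.ite (measurableSet_lt measurable_id measurable_const) measurable_const
    measurable_const

theorem meas_Lf (n : ℕ) (T : ℕ → ℝ) : Measurable (Lf n T) := by
  unfold Lf
  refine Finset.measurable_sum _ fun j _ => ?_
  exact Measurable.ite (measurableSet_lt measurable_const (measurable_id.sub_const _))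
    measurable_const measurable_const

theorem Rf_le (n : ℕ) (T : ℕ → ℝ) (s : ℝ) : Rf n T s ≤ n := by
  unfold Rf
  rw [← Finset.card_filter]
  exact (Finset.card_filter_le _ _).trans (by simp)

theorem Lf_le (n : ℕ) (T : ℕ → ℝ) (s : ℝ) : Lf n T s ≤ n := by
  unfold Lf
  rw [← Finset.card_filter]
  exact (Finset.card_filter_le _ _).trans (by simp)

theorem Q_eq (n : ℕ) (T : ℕ → ℝ) (s : ℝ) :
    ((Rf n T s + Lf n T s : ℕ) : ℝ) = ∑ j ∈ Finset.range n, chi (T j) s := by
  unfold Rf Lf chi
  push_cast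
  rw [← Finset.sum_add_distrib]

/-- The agents in clockwise order; the window is `(-1/2, 1/2]`. -/
structure Win (k : ℕ) (T : ℕ → ℝ) : Prop where
  mono : Monotone T
  per : ∀ j, T (j + (2 * k + 1)) = T j + 1
  lo : -(1 / 2) < T 0
  hi : T (2 * k) ≤ 1 / 2

section

variable {k : ℕ} {T : ℕ → ℝ} (H : Win k T)
include H

theorem Win.lo' {j : ℕ} : -(1 / 2) < T j := lt_of_lt_of_le H.lo (H.mono (Nat.zero_le j))

theorem Win.hi' {j : ℕ} (hj : j < 2 * k + 1) : T j ≤ 1 / 2 :=
  (H.mono (show j ≤ 2 * k by omega)).trans H.hi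

theorem Win.le_Lf {m : ℕ} (hm : 1 ≤ m) (hmn : m ≤ 2 * k + 1) (s : ℝ) :
    m ≤ Lf (2 * k + 1) T s ↔ T (m - 1) < s - 1 / 2 := by
  unfold Lf
  rw [← Finset.card_filter]
  constructor
  · intro h
    by_contra hcon
    rw [not_lt] at hcon
    have h1 : (Finset.range (2 * k + 1)).filter (fun j => T j < s - 1 / 2) ⊆
        Finset.range (m - 1) := by
      intro j hj
      rw [Finset.mem_filter] at hj
      rw [Finset.mem_range]
      by_contra h2
      rw [not_lt] at h2
      exact absurd (hj.2) (not_lt.mpr (hcon.trans (H.mono h2)))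
    have h2 := Finset.card_le_card h1
    rw [Finset.card_range] at h2
    omega
  · intro h
    have h1 : Finset.range m ⊆ (Finset.range (2 * k + 1)).filter (fun j => T j < s - 1 / 2) := by
      intro j hj
      rw [Finset.mem_range] at hj
      rw [Finset.mem_filter, Finset.mem_range]
      exact ⟨by omega, lt_of_le_of_lt (H.mono (by omega)) h⟩
    have h2 := Finset.card_le_card h1
    rwa [Finset.card_range] at h2

theorem Win.le_Rf {m : ℕ} (hm : 1 ≤ m) (hmn : m ≤ 2 * k + 1) (s : ℝ) :
    m ≤ Rf (2 * k + 1) T s ↔ s < T (2 * k + 1 - m) := by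
  unfold Rf
  rw [← Finset.card_filter]
  constructor
  · intro h
    by_contra hcon
    rw [not_lt] at hcon
    have h1 : (Finset.range (2 * k + 1)).filter (fun j => s < T j) ⊆
        Finset.Ico (2 * k + 1 - m + 1) (2 * k + 1) := by
      intro j hj
      rw [Finset.mem_filter, Finset.mem_range] at hj
      rw [Finset.mem_Ico]
      refine ⟨?_, hj.1⟩
      by_contra h2
      exact absurd (hj.2) (not_lt.mpr ((H.mono (show j ≤ 2 * k + 1 - m by omega)).trans hcon))
    have h2 := Finset.card_le_card h1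
    rw [Nat.card_Ico] at h2
    omega
  · intro h
    have h1 : Finset.Ico (2 * k + 1 - m) (2 * k + 1) ⊆
        (Finset.range (2 * k + 1)).filter (fun j => s < T j) := by
      intro j hj
      rw [Finset.mem_Ico] at hj
      rw [Finset.mem_filter, Finset.mem_range]
      exact ⟨hj.2, lt_of_lt_of_le h (H.mono hj.1)⟩
    have h2 := Finset.card_le_card h1
    rw [Nat.card_Ico] at h2
    omega

theorem Win.filter_Lf (s : ℝ) : (Finset.range (2 * k + 1)).filter (fun j => T j < s - 1 / 2) =
    Finset.range (Lf (2 * k + 1) T s) := by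
  ext j
  rw [Finset.mem_filter, Finset.mem_range, Finset.mem_range]
  have hle := Lf_le (2 * k + 1) T s
  constructor
  · rintro ⟨h1, h2⟩
    exact (H.le_Lf (m := j + 1) (by omega) (by omega) s).mpr h2
  · intro h
    exact ⟨by omega, (H.le_Lf (m := j + 1) (by omega) (by omega) s).mp h⟩

theorem Win.filter_Rf (s : ℝ) : (Finset.range (2 * k + 1)).filter (fun j => s < T j) =
    Finset.Ico (2 * k + 1 - Rf (2 * k + 1) T s) (2 * k + 1) := by
  ext j
  rw [Finset.mem_filter, Finset.mem_range, Finset.mem_Ico]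
  have hle := Rf_le (2 * k + 1) T s
  constructor
  · rintro ⟨h1, h2⟩
    refine ⟨?_, h1⟩
    have := (H.le_Rf (m := 2 * k + 1 - j) (by omega) (by omega) s).mpr (by
      rwa [show 2 * k + 1 - (2 * k + 1 - j) = j by omega])
    omega
  · rintro ⟨h1, h2⟩
    refine ⟨h2, ?_⟩
    have := (H.le_Rf (m := 2 * k + 1 - j) (by omega) (by omega) s).mp (by omega)
    rwa [show 2 * k + 1 - (2 * k + 1 - j) = j by omega] at this

/-- The probability with which the mechanism PCD chooses the agent `j`. -/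
def gap (k : ℕ) (T : ℕ → ℝ) (j : ℕ) : ℝ := T (j + k + 1) - T (j + k)

omit H in
theorem sum_gap (a b : ℕ) (hab : a ≤ b) : ∑ j ∈ Finset.Ico a b, gap k T j = T (b + k) - T (a + k) := by
  unfold gap
  have h := Finset.sum_Ico_sub (fun j => T (j + k)) hab
  rw [← h]
  refine Finset.sum_congr rfl fun j _ => ?_
  rw [show j + k + 1 = j + 1 + k by ring]

theorem Win.sum_gap_all : ∑ j ∈ Finset.range (2 * k + 1), gap k T j = 1 := by
  rw [Finset.range_eq_Ico, sum_gap 0 _ (Nat.zero_le _), zero_add, add_comm (2 * k + 1) k, H.per]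
  ring

theorem Win.Rf_le_k (hk : T k = 0) {s : ℝ} (hs : 0 < s) : Rf (2 * k + 1) T s ≤ k := by
  by_contra hcon
  have h1 := (H.le_Rf (m := k + 1) (by omega) (by omega) s).mp (by omega)
  rw [show 2 * k + 1 - (k + 1) = k by omega, hk] at h1
  linarith

theorem Win.Lf_le_k (hk : T k = 0) {s : ℝ} (hs : s < 1 / 2) : Lf (2 * k + 1) T s ≤ k := by
  by_contra hcon
  have h1 := (H.le_Lf (m := k + 1) (by omega) (by omega) s).mp (by omega)
  rw [show k + 1 - 1 = k by omega, hk] at h1
  linarith

theorem Win.int_ind_right (hk : T k = 0) {s : ℝ} (hs : 0 < s) :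
    ∫ z, ind k (Rf (2 * k + 1) T s) (Lf (2 * k + 1) T z) ∂mu = - T (k - Rf (2 * k + 1) T s) := by
  have h1 := H.Rf_le_k hk hs
  have h2 : T (k - Rf (2 * k + 1) T s) ≤ 0 := hk ▸ H.mono (Nat.sub_le _ _)
  have h3 : -(1 / 2) < T (k - Rf (2 * k + 1) T s) := H.lo'
  rw [int_of (F := fun z => ind k (Rf (2 * k + 1) T s) (Lf (2 * k + 1) T z))
    (1 / 2 + T (k - Rf (2 * k + 1) T s)) (1 / 2) (by linarith) (by linarith) le_rfl]
  · ring
  · intro z hz hz'
    unfold ind
    have h4 : k + 1 ≤ Rf (2 * k + 1) T s + Lf (2 * k + 1) T z ↔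
        T (k - Rf (2 * k + 1) T s) < z - 1 / 2 := by
      have h5 := H.le_Lf (m := k + 1 - Rf (2 * k + 1) T s) (by omega) (by omega) z
      rw [show k + 1 - Rf (2 * k + 1) T s - 1 = k - Rf (2 * k + 1) T s by omega] at h5
      rw [← h5]
      omega
    by_cases h6 : k + 1 ≤ Rf (2 * k + 1) T s + Lf (2 * k + 1) T z
    · rw [if_pos h6, if_pos ⟨by linarith [h4.mp h6], hz'⟩]
    · rw [if_neg h6, if_neg (fun h7 => h6 (h4.mpr (by linarith [h7.1])))]

theorem Win.int_ind_left (hk : T k = 0) {s : ℝ} (hs : s < 1 / 2) :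
    ∫ z, ind k (Rf (2 * k + 1) T z) (Lf (2 * k + 1) T s) ∂mu = T (k + Lf (2 * k + 1) T s) := by
  have h1 := H.Lf_le_k hk hs
  have h2 : 0 ≤ T (k + Lf (2 * k + 1) T s) := hk ▸ H.mono (Nat.le_add_right _ _)
  have h3 : T (k + Lf (2 * k + 1) T s) ≤ 1 / 2 := H.hi' (by omega)
  rw [int_of (F := fun z => ind k (Rf (2 * k + 1) T z) (Lf (2 * k + 1) T s))
    0 (T (k + Lf (2 * k + 1) T s)) le_rfl h2 h3]
  · ring
  · intro z hz hz'
    unfold ind
    have h4 : k + 1 ≤ Rf (2 * k + 1) T z + Lf (2 * k + 1) T s ↔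
        z < T (k + Lf (2 * k + 1) T s) := by
      have h5 := H.le_Rf (m := k + 1 - Lf (2 * k + 1) T s) (by omega) (by omega) z
      rw [show 2 * k + 1 - (k + 1 - Lf (2 * k + 1) T s) = k + Lf (2 * k + 1) T s by omega] at h5
      rw [← h5]
      omega
    by_cases h6 : k + 1 ≤ Rf (2 * k + 1) T z + Lf (2 * k + 1) T s
    · rw [if_pos h6, if_pos ⟨hz, h4.mp h6⟩]
    · rw [if_neg h6, if_neg (fun h7 => h6 (h4.mpr h7.2))]

/-- The weighted sum of the half circles. -/
theorem Win.sum_gap_chi (hk : T k = 0) {s : ℝ} (hs : 0 < s) (hs' : s < 1 / 2) :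
    ∑ j ∈ Finset.range (2 * k + 1), gap k T j * chi (T j) s =
      ∫ z, ind k (Rf (2 * k + 1) T s) (Lf (2 * k + 1) T z) ∂mu +
      ∫ z, ind k (Rf (2 * k + 1) T z) (Lf (2 * k + 1) T s) ∂mu := by
  rw [H.int_ind_right hk hs, H.int_ind_left hk hs']
  have e1 : ∑ j ∈ Finset.range (2 * k + 1), gap k T j * chi (T j) s =
      ∑ j ∈ (Finset.range (2 * k + 1)).filter (fun j => s < T j), gap k T j +
      ∑ j ∈ (Finset.range (2 * k + 1)).filter (fun j => T j < s - 1 / 2), gap k T j := by
    rw [Finset.sum_filter, Finset.sum_filter, ← Finset.sum_add_distrib]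
    refine Finset.sum_congr rfl fun j _ => ?_
    unfold chi
    split_ifs <;> ring
  have h1 := H.Rf_le_k hk hs
  rw [e1, H.filter_Rf, H.filter_Lf, sum_gap _ _ (Nat.sub_le _ _), Finset.range_eq_Ico,
    sum_gap _ _ (Nat.zero_le _), zero_add, hk, sub_zero, add_comm (2 * k + 1) k, H.per, hk,
    show 2 * k + 1 - Rf (2 * k + 1) T s + k = (k - Rf (2 * k + 1) T s) + (2 * k + 1) by omega,
    H.per, add_comm (Lf (2 * k + 1) T s) k]
  ring

end

end Pool.Agent.Q216.PC
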