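import Mathlib
import Pool.Agent.Q216.PC.Geom

/-!
# The inequality for agents in a window
-/

set_option autoImplicit false

namespace Pool.Agent.Q216.PC

open MeasureTheory

theorem meas_chi (a : ℝ) : Measurable (chi a) := by
  unfold chi
  refine Measurable.add ?_ ?_
  · exact Measurable.ite (measurableSet_lt measurable_id measurable_const) measurable_const
      measurable_const
  · exact Measurable.ite (measurableSet_lt measurable_const (measurable_id.sub_const _))
      measurable_const measurable_const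

theorem chi_nonneg (a s : ℝ) : 0 ≤ chi a s := by
  unfold chi
  split_ifs <;> norm_num

theorem norm_chi_le (a s : ℝ) : ‖chi a s‖ ≤ 2 := by
  unfold chi
  split_ifs <;> norm_num

theorem integrable_G (n : ℕ) (T : ℕ → ℝ) (G : ℕ → ℕ → ℝ) (a : ℝ) :
    Integrable (fun s => G (Rf n T s) (Lf n T s) * chi a s) mu :=
  (integrable2 (μ := mu) (meas_Rf n T) (meas_Lf n T) (Rf_le n T) (Lf_le n T) G).mul_bdd
    (meas_chi a).aestronglyMeasurable (Filter.Eventually.of_forall (norm_chi_le a))

theorem integrable_chi (a : ℝ) : Integrable (chi a) mu := by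
  have h := integrable_G 0 (fun _ => 0) (fun _ _ => 1) a
  simpa using h

theorem integrable_chi_mul (a b : ℝ) : Integrable (fun s => chi a s * chi b s) mu :=
  (integrable_chi a).mul_bdd (meas_chi b).aestronglyMeasurable
    (Filter.Eventually.of_forall (norm_chi_le b))

section

variable {k : ℕ} {T : ℕ → ℝ} (H : Win k T)

/-- The number of the agents in the half circle. -/
noncomputable def qf (k : ℕ) (T : ℕ → ℝ) (s : ℝ) : ℝ :=
  ((Rf (2 * k + 1) T s + Lf (2 * k + 1) T s : ℕ) : ℝ)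

theorem qf_eq (k : ℕ) (T : ℕ → ℝ) (s : ℝ) :
    qf k T s = ∑ j ∈ Finset.range (2 * k + 1), chi (T j) s := Q_eq _ _ _

theorem ae_mem : ∀ᵐ s ∂mu, 0 < s ∧ s < 1 / 2 := by
  unfold mu
  rw [ae_restrict_iff' measurableSet_Ioo]
  exact Filter.Eventually.of_forall fun s hs => hs

include H

theorem Win.int_q : ∫ s, qf k T s ∂mu = ∑ j ∈ Finset.range (2 * k + 1), |T j| := by
  simp only [qf_eq]
  rw [integral_finsetSum _ fun j _ => integrable_chi (T j)]
  refine Finset.sum_congr rfl fun j hj => ?_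
  exact int_chi H.lo' (H.hi' (Finset.mem_range.mp hj))

theorem Win.int_q_chi {b : ℝ} (hb1 : -(1 / 2) < b) (hb2 : b ≤ 1 / 2) :
    2 * ∫ s, qf k T s * chi b s ∂mu = ∑ j ∈ Finset.range (2 * k + 1), (|T j| + |b| -
      dc (T j - b)) := by
  have h1 : ∫ s, qf k T s * chi b s ∂mu =
      ∑ j ∈ Finset.range (2 * k + 1), ∫ s, chi (T j) s * chi b s ∂mu := by
    rw [← integral_finsetSum _ fun j _ => integrable_chi_mul (T j) b]
    refine integral_congr_ae (Filter.Eventually.of_forall fun s => ?_)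
    simp only
    rw [qf_eq, Finset.sum_mul]
  rw [h1, Finset.mul_sum]
  refine Finset.sum_congr rfl fun j hj => ?_
  exact int_chi_mul H.lo' (H.hi' (Finset.mem_range.mp hj)) hb1 hb2

/-- The cost of the position `b`. -/
theorem Win.cost_eq {b : ℝ} (hb1 : -(1 / 2) < b) (hb2 : b ≤ 1 / 2) :
    ∑ j ∈ Finset.range (2 * k + 1), dc (T j - b) =
      ∑ j ∈ Finset.range (2 * k + 1), |T j| +
        ∫ s, ((2 * k + 1) - 2 * qf k T s) * chi b s ∂mu := by
  have h1 := H.int_q_chi hb1 hb2
  rw [Finset.sum_sub_distrib, Finset.sum_add_distrib, Finset.sum_const, Finset.card_range,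
    nsmul_eq_mul] at h1
  push_cast at h1
  have h2 : ∫ s, ((2 * k + 1) - 2 * qf k T s) * chi b s ∂mu =
      (2 * k + 1) * ∫ s, chi b s ∂mu - 2 * ∫ s, qf k T s * chi b s ∂mu := by
    rw [← integral_const_mul, ← integral_const_mul, ← integral_sub]
    · refine integral_congr_ae (Filter.Eventually.of_forall fun s => ?_)
      simp only
      ring
    · exact (integrable_chi b).const_mul _
    · exact (integrable_G (2 * k + 1) T (fun x y => ((x + y : ℕ) : ℝ)) b).const_mul 2
  rw [h2, int_chi hb1 hb2, h1]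
  ring

/-- The middle agent is at the optimum. -/
theorem Win.eq_zero (hopt : ∑ j ∈ Finset.range (2 * k + 1), |T j| ≤
    ∑ j ∈ Finset.range (2 * k + 1), dc (T j - T k)) : T k = 0 := by
  have hk2 : T k ≤ 1 / 2 := H.hi' (by omega)
  have hk1 : -(1 / 2) < T k := H.lo'
  rw [H.cost_eq hk1 hk2] at hopt
  have h0 : 0 ≤ ∫ s, ((2 * k + 1) - 2 * qf k T s) * chi (T k) s ∂mu := by linarith
  have hle : ∫ s, ((2 * k + 1) - 2 * qf k T s) * chi (T k) s ∂mu ≤ ∫ s, - chi (T k) s ∂mu := by
    refine integral_mono_ae (integrable_G (2 * k + 1) T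
      (fun x y => ((2 * k + 1) - 2 * ((x + y : ℕ) : ℝ))) (T k)) (integrable_chi _).neg ?_
    filter_upwards [ae_mem] with s hs
    have hq : chi (T k) s = 0 ∨ (k : ℝ) + 1 ≤ qf k T s := by
      rcases le_or_gt 0 (T k) with h1 | h1
      · rw [chi_of_nonneg h1 hs.2]
        by_cases h2 : s < T k
        · right
          have h3 := (H.le_Rf (m := k + 1) (by omega) (by omega) s).mpr (by
            rwa [show 2 * k + 1 - (k + 1) = k by omega])
          unfold qf
          have h4 : k + 1 ≤ Rf (2 * k + 1) T s + Lf (2 * k + 1) T s := by omega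
          exact_mod_cast h4
        · left
          rw [if_neg h2]
      · rw [chi_of_neg h1 hs.1]
        by_cases h2 : 1 / 2 + T k < s
        · right
          have h3 := (H.le_Lf (m := k + 1) (by omega) (by omega) s).mpr (by
            rw [show k + 1 - 1 = k by omega]
            linarith)
          unfold qf
          have h4 : k + 1 ≤ Rf (2 * k + 1) T s + Lf (2 * k + 1) T s := by omega
          exact_mod_cast h4
        · left
          rw [if_neg h2]
    rcases hq with h1 | h1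
    · simp only [h1, mul_zero, neg_zero, le_refl]
    · have h2 := chi_nonneg (T k) s
      have h3 : ((2 * k + 1) - 2 * qf k T s) ≤ -1 := by linarith
      have h4 := mul_le_mul_of_nonneg_right h3 h2
      linarith
  rw [integral_neg, int_chi hk1 hk2] at hle
  have h5 : |T k| ≤ 0 := by linarith
  exact abs_eq_zero.mp (le_antisymm h5 (abs_nonneg _))

/-- The excess of PCD as a double integral. -/
theorem Win.excess (hk : T k = 0) :
    ∫ s, ((2 * k + 1) - 2 * qf k T s) *
      ∑ j ∈ Finset.range (2 * k + 1), gap k T j * chi (T j) s ∂mu =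
    ∫ p : ℝ × ℝ, ind k (Rf (2 * k + 1) T p.1) (Lf (2 * k + 1) T p.2) * (2 * (2 * k + 1) -
      2 * ((Rf (2 * k + 1) T p.1 + Lf (2 * k + 1) T p.1 : ℕ) : ℝ) -
      2 * ((Rf (2 * k + 1) T p.2 + Lf (2 * k + 1) T p.2 : ℕ) : ℝ)) ∂(mu.prod mu) := by
  have I4 := fun G => integrable4 (μ := mu) (meas_Rf (2 * k + 1) T) (meas_Lf (2 * k + 1) T)
    (Rf_le (2 * k + 1) T) (Lf_le (2 * k + 1) T) G
  have J1 := I4 fun a b c d => ind k a d * ((2 * k + 1) - 2 * ((a + b : ℕ) : ℝ))
  have J2 := I4 fun a b c d => ind k a d * ((2 * k + 1) - 2 * ((c + d : ℕ) : ℝ))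
  have h1 : ∀ p : ℝ × ℝ, ind k (Rf (2 * k + 1) T p.1) (Lf (2 * k + 1) T p.2) *
      (2 * (2 * k + 1) -
      2 * ((Rf (2 * k + 1) T p.1 + Lf (2 * k + 1) T p.1 : ℕ) : ℝ) -
      2 * ((Rf (2 * k + 1) T p.2 + Lf (2 * k + 1) T p.2 : ℕ) : ℝ)) =
      ind k (Rf (2 * k + 1) T p.1) (Lf (2 * k + 1) T p.2) * ((2 * k + 1) -
        2 * ((Rf (2 * k + 1) T p.1 + Lf (2 * k + 1) T p.1 : ℕ) : ℝ)) +
      ind k (Rf (2 * k + 1) T p.1) (Lf (2 * k + 1) T p.2) * ((2 * k + 1) -
        2 * ((Rf (2 * k + 1) T p.2 + Lf (2 * k + 1) T p.2 : ℕ) : ℝ)) := by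
    intro p
    ring
  simp only [h1]
  rw [integral_add J1 J2, integral_prod _ J1, integral_prod_symm _ J2, ← integral_add
    J1.integral_prod_left J2.integral_prod_right]
  refine integral_congr_ae ?_
  filter_upwards [ae_mem] with s hs
  rw [H.sum_gap_chi hk hs.1 hs.2, integral_mul_const, integral_mul_const]
  unfold qf
  ring

/-- **Main inequality.** -/
theorem Win.main (hk : T k = 0) (hpos : 0 < ∑ j ∈ Finset.range (2 * k + 1), |T j|) :
    1 / (2 * k + 1) * ∑ j ∈ Finset.range (2 * k + 1), ∑ i ∈ Finset.range (2 * k + 1),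
      dc (T i - T j) +
    ∑ j ∈ Finset.range (2 * k + 1), gap k T j * ∑ i ∈ Finset.range (2 * k + 1),
      dc (T i - T j) < 3 * ∑ j ∈ Finset.range (2 * k + 1), |T j| := by
  set c0 : ℝ := ∑ j ∈ Finset.range (2 * k + 1), |T j| with hc0
  have hcost : ∀ j ∈ Finset.range (2 * k + 1), ∑ i ∈ Finset.range (2 * k + 1), dc (T i - T j) =
      c0 + ∫ s, ((2 * k + 1) - 2 * qf k T s) * chi (T j) s ∂mu := fun j hj =>
    H.cost_eq H.lo' (H.hi' (Finset.mem_range.mp hj))
  have hint : ∀ j, Integrable (fun s => ((2 * k + 1) - 2 * qf k T s) * chi (T j) s) mu := fun j =>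
    integrable_G (2 * k + 1) T (fun x y => ((2 * k + 1) - 2 * ((x + y : ℕ) : ℝ))) (T j)
  -- the first sum
  have h1 : ∑ j ∈ Finset.range (2 * k + 1), ∑ i ∈ Finset.range (2 * k + 1), dc (T i - T j) =
      2 * (2 * k + 1) * c0 - 2 * ∫ s, qf k T s ^ 2 ∂mu := by
    rw [Finset.sum_congr rfl hcost, Finset.sum_add_distrib, Finset.sum_const, Finset.card_range,
      nsmul_eq_mul, ← integral_finsetSum _ fun j _ => hint j]
    have h2 : ∀ s, ∑ j ∈ Finset.range (2 * k + 1), ((2 * k + 1) - 2 * qf k T s) * chi (T j) s =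
        (2 * k + 1) * qf k T s - 2 * qf k T s ^ 2 := by
      intro s
      rw [← Finset.mul_sum, ← qf_eq]
      ring
    simp only [h2]
    have i1 := integrable2 (μ := mu) (meas_Rf (2 * k + 1) T) (meas_Lf (2 * k + 1) T)
      (Rf_le (2 * k + 1) T) (Lf_le (2 * k + 1) T) fun x y => (2 * (k : ℝ) + 1) * ((x + y : ℕ) : ℝ)
    have i2 := integrable2 (μ := mu) (meas_Rf (2 * k + 1) T) (meas_Lf (2 * k + 1) T)
      (Rf_le (2 * k + 1) T) (Lf_le (2 * k + 1) T) fun x y => 2 * ((x + y : ℕ) : ℝ) ^ 2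
    have h3 : ∫ s, ((2 * k + 1) * qf k T s - 2 * qf k T s ^ 2) ∂mu =
        (2 * k + 1) * ∫ s, qf k T s ∂mu - 2 * ∫ s, qf k T s ^ 2 ∂mu := by
      rw [← integral_const_mul, ← integral_const_mul]
      exact integral_sub i1 i2
    rw [h3, H.int_q, ← hc0]
    push_cast
    ring
  -- the second sum
  have h4 : ∑ j ∈ Finset.range (2 * k + 1), gap k T j * ∑ i ∈ Finset.range (2 * k + 1),
      dc (T i - T j) = c0 + ∫ s, ((2 * k + 1) - 2 * qf k T s) *
        ∑ j ∈ Finset.range (2 * k + 1), gap k T j * chi (T j) s ∂mu := by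
    have h5 : ∑ j ∈ Finset.range (2 * k + 1), gap k T j * ∑ i ∈ Finset.range (2 * k + 1),
        dc (T i - T j) = ∑ j ∈ Finset.range (2 * k + 1), (gap k T j * c0 +
          ∫ s, gap k T j * (((2 * k + 1) - 2 * qf k T s) * chi (T j) s) ∂mu) := by
      refine Finset.sum_congr rfl fun j hj => ?_
      rw [hcost j hj, integral_const_mul]
      ring
    rw [h5, Finset.sum_add_distrib, ← Finset.sum_mul, H.sum_gap_all, one_mul,
      ← integral_finsetSum _ fun j _ => (hint j).const_mul _]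
    congr 1
    refine integral_congr_ae (Filter.Eventually.of_forall fun s => ?_)
    simp only
    rw [Finset.mul_sum]
    refine Finset.sum_congr rfl fun j _ => ?_
    ring
  have h6 := core (μ := mu) mu_univ (meas_Rf (2 * k + 1) T) (meas_Lf (2 * k + 1) T)
    (Rf_le (2 * k + 1) T) (Lf_le (2 * k + 1) T) k (by
      have := H.int_q
      rw [← hc0] at this
      unfold qf at this
      rw [this]
      exact hpos)
  rw [← H.excess hk] at h6
  rw [h1, h4]
  have hn : (0 : ℝ) < 2 * k + 1 := by positivity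
  have h7 : 1 / (2 * (k : ℝ) + 1) * (2 * (2 * k + 1) * c0 - 2 * ∫ s, qf k T s ^ 2 ∂mu) =
      2 * c0 - 2 * (∫ s, qf k T s ^ 2 ∂mu) / (2 * k + 1) := by
    field_simp
  rw [h7]
  have h8 : ∫ s, ((2 * k + 1) - 2 * qf k T s) *
        ∑ j ∈ Finset.range (2 * k + 1), gap k T j * chi (T j) s ∂mu <
      2 * (∫ s, qf k T s ^ 2 ∂mu) / (2 * k + 1) := by
    rw [lt_div_iff₀ hn, mul_comm]
    exact h6
  linarith

end

end Pool.Agent.Q216.PC
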