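import Mathlib
import Pool.Agent.Q216.PC.Defs
import Pool.Agent.Q216.PC.Ineq

/-!
# The approximation ratio of RD+PCD is less than 3/2
-/

set_option autoImplicit false

namespace Pool.Agent.Q216.PC

theorem norm_eq_dc {x : ℝ} (hx : |x| ≤ 1) : ‖(x : Circ)‖ = dc x := by
  have h0 : ‖(x : Circ)‖ = |x - round x| := UnitAddCircle.norm_eq
  rw [h0, abs_sub_round_eq_min]
  unfold dc
  rw [abs_le] at hx
  rcases le_or_gt 0 x with h | h
  · rw [abs_of_nonneg h]
    rcases hx.2.lt_or_eq with h1 | h1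
    · rw [Int.fract_eq_self.mpr ⟨h, h1⟩]
    · rw [h1]
      norm_num
  · rw [abs_of_neg h]
    rcases hx.1.lt_or_eq with h1 | h1
    · have h2 : Int.fract x = x + 1 := by
        rw [Int.fract_eq_iff]
        exact ⟨by linarith, by linarith, -1, by push_cast; ring⟩
      rw [h2, min_comm]
      congr 1 <;> ring
    · rw [← h1]
      norm_num

theorem cw_nonneg (u v : Circ) : 0 ≤ cw u v := (AddCircle.equivIco 1 0 (v - u)).2.1

theorem cw_lt (u v : Circ) : cw u v < 1 := by
  have := (AddCircle.equivIco 1 0 (v - u)).2.2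
  unfold cw
  linarith

theorem coe_cw (u v : Circ) : ((cw u v : ℝ) : Circ) = v - u :=
  AddCircle.coe_equivIco

section Periodic

variable {n : ℕ} [NeZero n]

theorem sum_zmod (F : ZMod n → ℝ) : ∑ z, F z = ∑ j ∈ Finset.range n, F (j : ZMod n) := by
  refine Finset.sum_nbij' (fun z => z.val) (fun i => (i : ZMod n)) ?_ ?_ ?_ ?_ ?_
  · intro z _
    exact Finset.mem_range.mpr (ZMod.val_lt z)
  · intro i _
    exact Finset.mem_univ _
  · intro z _
    exact ZMod.natCast_zmod_val z
  · intro i hi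
    exact ZMod.val_cast_of_lt (Finset.mem_range.mp hi)
  · intro z _
    rw [ZMod.natCast_zmod_val]

theorem sum_shift (F : ZMod n → ℝ) (m : ℕ) :
    ∑ j ∈ Finset.range n, F ((m + j : ℕ) : ZMod n) = ∑ z, F z := by
  induction m with
  | zero =>
    rw [sum_zmod]
    simp
  | succ m ih =>
    rw [← ih]
    have h1 : ∑ j ∈ Finset.range n, F ((m + 1 + j : ℕ) : ZMod n) =
        ∑ j ∈ Finset.range n, F ((m + (j + 1) : ℕ) : ZMod n) :=
      Finset.sum_congr rfl fun j _ => by
        rw [show m + 1 + j = m + (j + 1) by ring]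
    rw [h1]
    have h2 := Finset.sum_range_succ (fun j => F ((m + j : ℕ) : ZMod n)) n
    have h3 := Finset.sum_range_succ' (fun j => F ((m + j : ℕ) : ZMod n)) n
    rw [h2] at h3
    have h4 : ((m + n : ℕ) : ZMod n) = ((m + 0 : ℕ) : ZMod n) := by
      push_cast
      rw [ZMod.natCast_self]
    rw [h4] at h3
    linarith

end Periodic

section

variable {N : Type*} {k : ℕ}

/-- The lift of the positions of the agents to the line. -/
noncomputable def lift (b : N → Circ) (a : ZMod (2 * k + 1) ≃ N) (o : Circ) (j : ℕ) : ℝ :=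
  cw o (b (a 0)) + ∑ i ∈ Finset.range j, cw (b (a (i : ZMod (2 * k + 1))))
    (b (a ((i : ZMod (2 * k + 1)) + 1)))

variable (b : N → Circ) (a : ZMod (2 * k + 1) ≃ N) (o : Circ)

theorem lift_succ (j : ℕ) : lift b a o (j + 1) = lift b a o j +
    cw (b (a (j : ZMod (2 * k + 1)))) (b (a ((j : ZMod (2 * k + 1)) + 1))) := by
  unfold lift
  rw [Finset.sum_range_succ]
  ring

theorem lift_coe (j : ℕ) : ((lift b a o j : ℝ) : Circ) = b (a (j : ZMod (2 * k + 1))) - o := by
  induction j with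
  | zero =>
    unfold lift
    rw [Finset.sum_range_zero, add_zero, coe_cw]
    simp
  | succ j ih =>
    rw [lift_succ]
    push_cast
    rw [AddCircle.coe_add, ih, coe_cw]
    abel

theorem lift_mono : Monotone (lift b a o) :=
  monotone_nat_of_le_succ fun j => by
    rw [lift_succ]
    linarith [cw_nonneg (b (a (j : ZMod (2 * k + 1)))) (b (a ((j : ZMod (2 * k + 1)) + 1)))]

variable {b a}

theorem lift_per [Fintype N] (ha : IsClockwise b a) (j : ℕ) :
    lift b a o (j + (2 * k + 1)) = lift b a o j + 1 := by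
  unfold lift
  rw [Finset.sum_range_add, ← add_assoc]
  congr 1
  have h := sum_shift (n := 2 * k + 1) (fun z => cw (b (a z)) (b (a (z + 1)))) j
  rw [show ∑ z, cw (b (a z)) (b (a (z + 1))) = 1 from ha] at h
  exact h

theorem exists_win [Fintype N] (ha : IsClockwise b a) : ∃ (m : ℕ) (T : ℕ → ℝ), Win k T ∧
    (∀ j, ((T j : ℝ) : Circ) = b (a ((m + j : ℕ) : ZMod (2 * k + 1))) - o) ∧
    ∀ j, T (j + 1) - T j = cw (b (a ((m + j : ℕ) : ZMod (2 * k + 1))))
      (b (a (((m + j : ℕ) : ZMod (2 * k + 1)) + 1))) := by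
  classical
  have h0 : 0 ≤ lift b a o 0 := by
    unfold lift
    rw [Finset.sum_range_zero, add_zero]
    exact cw_nonneg _ _
  have h1 : lift b a o 0 < 1 := by
    unfold lift
    rw [Finset.sum_range_zero, add_zero]
    exact cw_lt _ _
  have h2 : lift b a o (2 * k + 1) = lift b a o 0 + 1 := by
    have := lift_per o ha 0
    rwa [zero_add] at this
  have hex : ∃ j, 5 / 2 < lift b a o j := by
    refine ⟨2 * k + 1 + (2 * k + 1) + (2 * k + 1), ?_⟩
    rw [lift_per o ha, lift_per o ha, h2]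
    linarith
  obtain ⟨e, he1, he2⟩ : ∃ e, 5 / 2 < lift b a o e ∧ ∀ j < e, lift b a o j ≤ 5 / 2 :=
    ⟨Nat.find hex, Nat.find_spec hex, fun j hj => not_lt.mp (Nat.find_min hex hj)⟩
  have hen : 2 * k + 1 < e := by
    by_contra hcon
    have := lift_mono b a o (not_lt.mp hcon)
    linarith
  refine ⟨e - 1 - 2 * k, fun j => lift b a o (e - 1 - 2 * k + j) - 2, ⟨?_, ?_, ?_, ?_⟩, ?_, ?_⟩
  · intro i j hij
    have := lift_mono b a o (show e - 1 - 2 * k + i ≤ e - 1 - 2 * k + j by omega)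
    simp only
    linarith
  · intro j
    rw [← add_assoc (e - 1 - 2 * k) j, lift_per o ha]
    ring
  · have := lift_per o ha (e - 1 - 2 * k)
    rw [show e - 1 - 2 * k + (2 * k + 1) = e by omega] at this
    rw [add_zero]
    linarith
  · have := he2 (e - 1 - 2 * k + 2 * k) (by omega)
    linarith
  · intro j
    rw [AddCircle.coe_sub, lift_coe]
    have h3 : ((2 : ℝ) : Circ) = 0 := by
      have h4 : ((2 : ℤ) • (1 : ℝ) : ℝ) = 2 := by norm_num
      rw [← h4]
      rw [AddCircle.coe_zsmul, AddCircle.coe_period, smul_zero]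
    rw [h3, sub_zero]
  · intro j
    simp only
    rw [← add_assoc, lift_succ]
    ring

end

section

variable {N : Type*} [Fintype N] {k : ℕ} {b : N → Circ} {a : ZMod (2 * k + 1) ≃ N} {o : Circ}
  {m : ℕ} {T : ℕ → ℝ}

/-- The cost in terms of the window. -/
theorem cost_eq_win (H : Win k T)
    (hT : ∀ j, ((T j : ℝ) : Circ) = b (a ((m + j : ℕ) : ZMod (2 * k + 1))) - o) {x : ℝ}
    (hx1 : -(1 / 2) < x) (hx2 : x ≤ 1 / 2) :
    cost b (o + (x : Circ)) = ∑ j ∈ Finset.range (2 * k + 1), dc (T j - x) := by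
  unfold cost
  rw [← a.sum_comp (fun i => dist (b i) (o + (x : Circ))),
    ← sum_shift (fun z => dist (b (a z)) (o + (x : Circ))) m]
  refine Finset.sum_congr rfl fun j hj => ?_
  have h1 : -(1 / 2) < T j := H.lo'
  have h2 : T j ≤ 1 / 2 := H.hi' (Finset.mem_range.mp hj)
  rw [← norm_eq_dc (abs_le.mpr ⟨by linarith, by linarith⟩), dist_eq_norm, AddCircle.coe_sub, hT]
  congr 1
  abel

theorem cost_agent (H : Win k T)
    (hT : ∀ j, ((T j : ℝ) : Circ) = b (a ((m + j : ℕ) : ZMod (2 * k + 1))) - o) {i : ℕ}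
    (hi : i < 2 * k + 1) :
    cost b (b (a ((m + i : ℕ) : ZMod (2 * k + 1)))) =
      ∑ j ∈ Finset.range (2 * k + 1), dc (T j - T i) := by
  have h1 := cost_eq_win (b := b) (a := a) (o := o) H hT (x := T i) H.lo' (H.hi' hi)
  rw [← h1, hT]
  congr 1
  abel

theorem cost_center (H : Win k T)
    (hT : ∀ j, ((T j : ℝ) : Circ) = b (a ((m + j : ℕ) : ZMod (2 * k + 1))) - o) :
    cost b o = ∑ j ∈ Finset.range (2 * k + 1), |T j| := by
  have h1 := cost_eq_win (b := b) (a := a) (o := o) H hT (x := 0) (by norm_num) (by norm_num)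
  rw [AddCircle.coe_zero, add_zero] at h1
  rw [h1]
  refine Finset.sum_congr rfl fun j hj => ?_
  have h1 : -(1 / 2) < T j := H.lo'
  have h2 : T j ≤ 1 / 2 := H.hi' (Finset.mem_range.mp hj)
  have h3 : |T j| ≤ 1 / 2 := abs_le.mpr ⟨by linarith, h2⟩
  unfold dc
  rw [sub_zero, min_eq_left (by linarith)]

/-- Expected costs. -/
theorem sc_eq (b : N → Circ) (l : Circ →₀ ℝ) :
    sc b l = Finsupp.linearCombination ℝ (cost b) l := by
  unfold sc
  rw [Finsupp.linearCombination_apply]
  rfl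

theorem sc_add (b : N → Circ) (l l' : Circ →₀ ℝ) : sc b (l + l') = sc b l + sc b l' := by
  rw [sc_eq, sc_eq, sc_eq, map_add]

theorem sc_smul (b : N → Circ) (c : ℝ) (l : Circ →₀ ℝ) : sc b (c • l) = c * sc b l := by
  rw [sc_eq, sc_eq, map_smul, smul_eq_mul]

theorem sc_sum {ι : Type*} (s : Finset ι) (b : N → Circ) (x : ι → Circ) (p : ι → ℝ) :
    sc b (∑ i ∈ s, Finsupp.single (x i) (p i)) = ∑ i ∈ s, p i * cost b (x i) := by
  rw [sc_eq, map_sum]
  refine Finset.sum_congr rfl fun i _ => ?_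
  rw [Finsupp.linearCombination_single, smul_eq_mul]

/-- The optimum is attained. -/
theorem exists_opt (b : N → Circ) : ∃ o, cost b o = opt b ∧ ∀ v, cost b o ≤ cost b v := by
  have hc : Continuous (cost b) := by
    unfold cost
    exact continuous_finsetSum _ fun i _ => continuous_const.dist continuous_id
  obtain ⟨o, _, ho⟩ := isCompact_univ.exists_isMinOn (Set.univ_nonempty (α := Circ))
    hc.continuousOn
  have ho' : ∀ v, cost b o ≤ cost b v := fun v => ho (Set.mem_univ v)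
  refine ⟨o, ?_, ho'⟩
  unfold opt
  refine le_antisymm (le_ciInf ho') (ciInf_le ⟨cost b o, ?_⟩ o)
  rintro _ ⟨v, rfl⟩
  exact ho' v

/-- The inequality for every clockwise order. -/
theorem ratio (hN : Fintype.card N = 2 * k + 1) (b : N → Circ) (hopt : 0 < opt b)
    (a : ZMod (2 * k + 1) ≃ N) (ha : IsClockwise b a) :
    sc b ((1 / 2 : ℝ) • RD b + (1 / 2 : ℝ) • PCD b a) < 3 / 2 * opt b := by
  obtain ⟨o, ho, ho'⟩ := exists_opt b
  obtain ⟨m, T, H, hT, hgap⟩ := exists_win o ha
  have hc0 := cost_center (b := b) (a := a) (o := o) H hT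
  have hk : T k = 0 := by
    apply H.eq_zero
    rw [← hc0, ← cost_agent (b := b) (a := a) (o := o) H hT (i := k) (by omega)]
    exact ho' _
  have hpos : 0 < ∑ j ∈ Finset.range (2 * k + 1), |T j| := by
    rw [← hc0, ho]
    exact hopt
  have hmain := H.main hk hpos
  have hRD : sc b (RD b) = 1 / (2 * k + 1) * ∑ j ∈ Finset.range (2 * k + 1),
      ∑ i ∈ Finset.range (2 * k + 1), dc (T i - T j) := by
    unfold RD
    rw [sc_sum, ← Finset.mul_sum, hN, ← a.sum_comp (fun i => cost b (b i)),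
      ← sum_shift (fun z => cost b (b (a z))) m]
    push_cast
    congr 1
    refine Finset.sum_congr rfl fun j hj => ?_
    have h1 := cost_agent (b := b) (a := a) (o := o) H hT (Finset.mem_range.mp hj)
    push_cast at h1
    exact h1
  have harc : ∀ j : ℕ, arc b a ((m + j : ℕ) : ZMod (2 * k + 1)) = gap k T j := by
    intro j
    unfold arc gap
    rw [hgap]
    have e1 : ((m + j : ℕ) : ZMod (2 * k + 1)) + (k : ZMod (2 * k + 1)) =
        ((m + (j + k) : ℕ) : ZMod (2 * k + 1)) := by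
      push_cast
      ring
    have e2 : ((m + j : ℕ) : ZMod (2 * k + 1)) - (k : ZMod (2 * k + 1)) =
        ((m + (j + k) : ℕ) : ZMod (2 * k + 1)) + 1 := by
      have h0 : ((2 * k + 1 : ℕ) : ZMod (2 * k + 1)) = 0 := ZMod.natCast_self _
      have h1 : ((m + (j + k) : ℕ) : ZMod (2 * k + 1)) + 1 =
          ((m + j : ℕ) : ZMod (2 * k + 1)) - (k : ZMod (2 * k + 1)) +
            ((2 * k + 1 : ℕ) : ZMod (2 * k + 1)) := by
        push_cast
        ring
      rw [h1, h0, add_zero]
    rw [e1, e2]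
  have harcs : ∑ l, arc b a l = 1 := by
    rw [← sum_shift (fun z => arc b a z) m, ← H.sum_gap_all]
    exact Finset.sum_congr rfl fun j _ => harc j
  have hPCD : sc b (PCD b a) = ∑ j ∈ Finset.range (2 * k + 1), gap k T j *
      ∑ i ∈ Finset.range (2 * k + 1), dc (T i - T j) := by
    unfold PCD
    rw [sc_sum, harcs, ← sum_shift (fun z => arc b a z / 1 * cost b (b (a z))) m]
    refine Finset.sum_congr rfl fun j hj => ?_
    rw [harc, div_one, cost_agent (b := b) (a := a) (o := o) H hT (Finset.mem_range.mp hj)]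
  rw [sc_add, sc_smul, sc_smul, hRD, hPCD, ← ho, hc0]
  linarith

/-- A clockwise order exists. -/
theorem exists_clockwise (hN : Fintype.card N = 2 * k + 1) (b : N → Circ) (hopt : 0 < opt b) :
    ∃ a : ZMod (2 * k + 1) ≃ N, IsClockwise b a := by
  -- representatives
  set r : N → ℝ := fun i => (AddCircle.equivIco 1 0 (b i) : ℝ) with hr
  have hr0 : ∀ i, 0 ≤ r i := fun i => (AddCircle.equivIco 1 0 (b i)).2.1
  have hr1 : ∀ i, r i < 1 := fun i => by
    have := (AddCircle.equivIco 1 0 (b i)).2.2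
    simp only [hr]
    linarith
  have hrb : ∀ i, ((r i : ℝ) : Circ) = b i := fun i => AddCircle.coe_equivIco
  have hcw : ∀ i j, cw (b i) (b j) = Int.fract (r j - r i) := by
    intro i j
    unfold cw
    rw [← hrb i, ← hrb j, ← AddCircle.coe_sub, AddCircle.coe_equivIco_mk_apply]
    simp
  -- sort
  let e0 : Fin (2 * k + 1) ≃ N := (Fintype.equivFinOfCardEq hN).symm
  let σ : Equiv.Perm (Fin (2 * k + 1)) := Tuple.sort (r ∘ e0)
  have hmono : Monotone ((r ∘ e0) ∘ σ) := Tuple.monotone_sort _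
  let e : Fin (2 * k + 1) ≃ N := σ.trans e0
  let a : ZMod (2 * k + 1) ≃ N := e
  have hval : ∀ j (hj : j < 2 * k + 1), a ((j : ℕ) : ZMod (2 * k + 1)) = e ⟨j, hj⟩ := by
    intro j hj
    have h1 : ((j : ℕ) : ZMod (2 * k + 1)) = (⟨j, hj⟩ : Fin (2 * k + 1)) := by
      apply Fin.ext
      exact ZMod.val_cast_of_lt hj
    change e ((j : ℕ) : ZMod (2 * k + 1)) = _
    rw [h1]
  set g : ℕ → ℝ := fun j => r (a ((j : ℕ) : ZMod (2 * k + 1))) with hg
  have hgm : ∀ i j, i ≤ j → j < 2 * k + 1 → g i ≤ g j := by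
    intro i j hij hj
    simp only [hg]
    rw [hval i (by omega), hval j hj]
    exact hmono (show (⟨i, by omega⟩ : Fin (2 * k + 1)) ≤ ⟨j, hj⟩ from hij)
  have hlt : g 0 < g (2 * k) := by
    by_contra hcon
    have h1 : ∀ j, j < 2 * k + 1 → g j = g 0 := fun j hj =>
      le_antisymm ((hgm j (2 * k) (by omega) (by omega)).trans (not_lt.mp hcon))
        (hgm 0 j (Nat.zero_le _) hj)
    have h2 : ∀ i, b i = b (a ((0 : ℕ) : ZMod (2 * k + 1))) := by
      intro i
      obtain ⟨z, rfl⟩ := a.surjective i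
      have h3 : z = ((z.val : ℕ) : ZMod (2 * k + 1)) := (ZMod.natCast_zmod_val z).symm
      have h4 := h1 z.val (ZMod.val_lt z)
      simp only [hg] at h4
      rw [← h3] at h4
      rw [← hrb, ← hrb, h4]
    have h5 : opt b ≤ 0 := by
      obtain ⟨o, ho, ho'⟩ := exists_opt b
      rw [← ho]
      refine (ho' (b (a ((0 : ℕ) : ZMod (2 * k + 1))))).trans (le_of_eq ?_)
      unfold cost
      refine Finset.sum_eq_zero fun i _ => ?_
      rw [h2 i, dist_self]
    linarith
  refine ⟨a, ?_⟩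
  unfold IsClockwise
  rw [sum_zmod (fun j => cw (b (a j)) (b (a (j + 1)))), Finset.sum_range_succ]
  have h6 : ∑ j ∈ Finset.range (2 * k), cw (b (a (j : ZMod (2 * k + 1))))
      (b (a ((j : ZMod (2 * k + 1)) + 1))) = g (2 * k) - g 0 := by
    rw [← Finset.sum_range_sub g (2 * k)]
    refine Finset.sum_congr rfl fun j hj => ?_
    rw [Finset.mem_range] at hj
    rw [hcw]
    have h7 : ((j : ℕ) : ZMod (2 * k + 1)) + 1 = ((j + 1 : ℕ) : ZMod (2 * k + 1)) := by
      push_cast
      ring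
    rw [h7]
    have h8 := hgm j (j + 1) (Nat.le_succ j) (by omega)
    have h9 : g (j + 1) < 1 := hr1 _
    have h10 : 0 ≤ g j := hr0 _
    exact Int.fract_eq_self.mpr ⟨by simp only [hg] at h8; linarith, by
      simp only [hg] at h9 h10; linarith⟩
  have h11 : cw (b (a ((2 * k : ℕ) : ZMod (2 * k + 1))))
      (b (a (((2 * k : ℕ) : ZMod (2 * k + 1)) + 1))) = g 0 - g (2 * k) + 1 := by
    rw [hcw]
    have h7 : ((2 * k : ℕ) : ZMod (2 * k + 1)) + 1 = ((0 : ℕ) : ZMod (2 * k + 1)) := by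
      have h0 : ((2 * k + 1 : ℕ) : ZMod (2 * k + 1)) = 0 := ZMod.natCast_self _
      have h1 : ((2 * k : ℕ) : ZMod (2 * k + 1)) + 1 = ((2 * k + 1 : ℕ) : ZMod (2 * k + 1)) := by
        push_cast
        ring
      rw [h1, h0]
      simp
    rw [h7]
    have h9 : g (2 * k) < 1 := hr1 _
    have h10 : 0 ≤ g 0 := hr0 _
    rw [Int.fract_eq_iff]
    simp only [hg] at h9 h10 hlt ⊢
    exact ⟨by linarith, by linarith, -1, by push_cast; ring⟩
  rw [h6, h11]
  ring

end

end Pool.Agent.Q216.PC
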